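import Pool.Agent.Q191.Carl

/-!
# The product of two Carleman operators need not be a Carleman operator

On every `L²(a, b)` there are a bounded operator `A` of rank one and a densely defined closed
Carleman operator `B` such that `A B` is not a Carleman operator.
-/

set_option autoImplicit false

open MeasureTheory Filter Topology
open scoped ENNReal

namespace Pool.Agent.Results.MP_fd0bc0_an.CarlemanProducts

/-- Lebesgue measure on the interval `(a, b)`. -/
noncomputable def vol (a b : EReal) : Measure ℝ :=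
  volume.restrict {x : ℝ | a < (x : EReal) ∧ (x : EReal) < b}

/-- The Hilbert space `L²(a, b)`. -/
abbrev L2 (a b : EReal) : Type := Lp ℂ 2 (vol a b)

/-- Linear operators in `L²(a, b)`, each with a domain. -/
abbrev Oper (a b : EReal) : Type := L2 a b →ₗ.[ℂ] L2 a b

/-- `f ∈ D(A)` and `A f = g`. -/
def Maps {a b : EReal} (A : Oper a b) (f g : L2 a b) : Prop := ∃ h : f ∈ A.domain, A ⟨f, h⟩ = g

/-- Carleman kernels on `(a, b) × (a, b)`: measurable, with `k(x, ·) ∈ L²(a, b)` for almost
every `x`. -/
def IsCarlemanKernel (a b : EReal) (k : ℝ → ℝ → ℂ) : Prop :=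
  AEStronglyMeasurable (Function.uncurry k) ((vol a b).prod (vol a b)) ∧
    ∀ᵐ x ∂(vol a b), MemLp (k x) 2 (vol a b)

/-- `g(x) = ∫ k(x, y) f(y) dy` for almost every `x`. -/
def IsTransform {a b : EReal} (k : ℝ → ℝ → ℂ) (f g : L2 a b) : Prop :=
  ∀ᵐ x ∂(vol a b), g x = ∫ y, k x y * f y ∂(vol a b)

/-- `A` is a Carleman operator: `(A f)(x) = ∫ k(x, y) f(y) dy` for almost every `x`, for every `f`
in the domain of `A`, for some Carleman kernel `k`. -/
def IsCarleman {a b : EReal} (A : Oper a b) : Prop :=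
  ∃ k, IsCarlemanKernel a b k ∧ ∀ f g, Maps A f g → IsTransform k f g

/-- `C` is the product `A B`: `f ∈ D(C)` and `C f = h` if and only if `f ∈ D(B)`, `B f ∈ D(A)` and
`A (B f) = h`. -/
def IsProduct {a b : EReal} (C A B : Oper a b) : Prop :=
  ∀ f h, Maps C f h ↔ ∃ g, Maps B f g ∧ Maps A g h

/-- `A` is everywhere defined, bounded and of rank at most one: `A f = ⟨u, f⟩ v` for all `f`. -/
def IsRankOne {a b : EReal} (A : Oper a b) : Prop :=
  ∃ u v : L2 a b, ∀ f : L2 a b, Maps A f ((inner ℂ u f : ℂ) • v)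

/-- `B` is closed and densely defined. -/
def IsClosedDense {a b : EReal} (B : Oper a b) : Prop :=
  B.IsClosed ∧ Dense (B.domain : Set (L2 a b))

lemma exists_data {a b : EReal} (hab : a < b) : ∃ (U : Set ℝ) (N : ℝ → ℕ), MeasurableSet U ∧
    vol a b U ≠ ∞ ∧ Measurable N ∧ ∀ n, vol a b (Q191.Carl.J U N n) ≠ 0 := by
  obtain ⟨c, hac, hcb⟩ := EReal.lt_iff_exists_real_btwn.1 hab
  obtain ⟨d, hcd, hdb⟩ := EReal.lt_iff_exists_real_btwn.1 hcb
  have hcd' : c < d := by exact_mod_cast hcd
  refine ⟨Set.Ioc c d, fun x => ⌊(d - c) / (x - c)⌋₊ - 1, measurableSet_Ioc, ?_, ?_, ?_⟩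
  · have h1 : vol a b (Set.Ioc c d) ≤ volume (Set.Ioc c d) := Measure.restrict_apply_le _ _
    exact ne_top_of_le_ne_top (by rw [Real.volume_Ioc]; exact ENNReal.ofReal_ne_top) h1
  · have h1 : Measurable fun x : ℝ => (d - c) / (x - c) :=
      measurable_const.div (measurable_id.sub measurable_const)
    exact (measurable_of_countable fun n : ℕ => n - 1).comp (Nat.measurable_floor.comp h1)
  · intro n
    set s : Set ℝ := Set.Ioo (c + (d - c) / (n + 2)) (c + (d - c) / (n + 1)) with hs
    have hpos : 0 < d - c := by linarith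
    have hn1 : (0 : ℝ) < n + 1 := by positivity
    have hn2 : (0 : ℝ) < n + 2 := by positivity
    have hlt : (d - c) / (n + 2) < (d - c) / (n + 1) :=
      div_lt_div_of_pos_left hpos hn1 (by linarith)
    have hsub : s ⊆ Q191.Carl.J (Set.Ioc c d) (fun x => ⌊(d - c) / (x - c)⌋₊ - 1) n := by
      rintro x ⟨h1, h2⟩
      have hxc : 0 < x - c := by
        have : 0 < (d - c) / (n + 2) := by positivity
        linarith
      have h3 : x - c < (d - c) / (n + 1) := by linarith
      have h4 : (d - c) / (n + 2) < x - c := by linarith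
      have h5 : (n : ℝ) + 1 < (d - c) / (x - c) := by
        rw [lt_div_iff₀ hxc]
        rw [lt_div_iff₀ hn1] at h3
        linarith
      have h6 : (d - c) / (x - c) < (n : ℝ) + 2 := by
        rw [div_lt_iff₀ hxc]
        rw [div_lt_iff₀ hn2] at h4
        linarith
      have h7 : ⌊(d - c) / (x - c)⌋₊ = n + 1 := by
        rw [Nat.floor_eq_iff (by linarith)]
        push_cast
        constructor <;> linarith
      refine ⟨⟨by linarith, ?_⟩, ?_⟩
      · have : (d - c) / (n + 1) ≤ d - c := div_le_self hpos.le (by linarith [Nat.cast_nonneg (α := ℝ) n])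
        linarith
      · show ⌊(d - c) / (x - c)⌋₊ - 1 = n
        rw [h7]
        omega
    have hs2 : vol a b s ≠ 0 := by
      have h8 : s ⊆ {x : ℝ | a < (x : EReal) ∧ (x : EReal) < b} := by
        intro x hx
        have h9 := (hsub hx).1
        refine ⟨hac.trans (by exact_mod_cast h9.1), lt_of_le_of_lt (by exact_mod_cast h9.2) hdb⟩
      have h10 : vol a b s = volume s := Measure.restrict_eq_self _ h8
      rw [h10, hs, Real.volume_Ioo]
      simp only [ne_eq, ENNReal.ofReal_eq_zero, not_le]
      linarith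
    exact fun h => hs2 (measure_mono_null hsub h)

/-- **Products of Carleman operators.** On every `L²(a, b)`, `-∞ ≤ a < b ≤ ∞`, there are
Carleman operators `A` and `B` whose product `A B` is not a Carleman operator; here `A` is an
everywhere defined bounded operator of rank one and `B` is closed and densely defined. -/
theorem result : ∀ a b : EReal, a < b → ∃ A B C : Oper a b, IsCarleman A ∧ IsCarleman B ∧
    IsProduct C A B ∧ ¬ IsCarleman C ∧ IsRankOne A ∧ IsClosedDense B := by
  intro a b hab
  obtain ⟨U, N, hU, hμU, hN, hpos⟩ := exists_data hab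
  haveI : SFinite (vol a b) := by unfold vol; infer_instance
  set T := Q191.Carl.opA (μ := vol a b) hU hμU with hT
  set B : Oper a b := Q191.Carl.opB (μ := vol a b) hU hμU hN with hB
  have hTu : ∀ f, T f = (inner ℂ (Q191.Carl.one (μ := vol a b) hU hμU) f : ℂ) •
      (Q191.Carl.one (μ := vol a b) hU hμU : L2 a b) := fun f => rfl
  refine ⟨(T : L2 a b →ₗ[ℂ] L2 a b).toPMap ⊤, B, (T : L2 a b →ₗ[ℂ] L2 a b).compPMap B,
    ?_, ?_, ?_, ?_, ⟨_, _, fun f => ⟨trivial, hTu f⟩⟩, ?_, ?_⟩
  · -- `A` is a Carleman operator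
    classical
    refine ⟨fun x y => (U.indicator (fun _ => (1 : ℂ)) x) * (U.indicator (fun _ => (1 : ℂ)) y),
      ⟨?_, ?_⟩, ?_⟩
    · refine Measurable.aestronglyMeasurable ?_
      have h1 : Measurable (U.indicator (fun _ => (1 : ℂ))) := measurable_const.indicator hU
      exact (h1.comp measurable_fst).mul (h1.comp measurable_snd)
    · refine Eventually.of_forall fun x => ?_
      exact (memLp_indicator_const 2 hU (1 : ℂ) (Or.inr hμU)).const_mul _
    · rintro f g ⟨-, rfl⟩
      have h1 : ((T f : L2 a b) : ℝ → ℂ) =ᵐ[vol a b]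
          fun x => (∫ y in U, (f : L2 a b) y ∂(vol a b)) * U.indicator (fun _ => (1 : ℂ)) x := by
        have h2 : T f =
            (∫ y in U, (f : L2 a b) y ∂(vol a b)) • (Q191.Carl.one (μ := vol a b) hU hμU) :=
          Q191.Carl.opA_apply hU hμU _
        rw [h2]
        filter_upwards [Lp.coeFn_smul (∫ y in U, (f : L2 a b) y ∂(vol a b))
          (Q191.Carl.one (μ := vol a b) hU hμU), indicatorConstLp_coeFn (p := 2) (hs := hU)
          (hμs := hμU) (c := (1 : ℂ))] with x hx1 hx2
        rw [hx1, Pi.smul_apply, smul_eq_mul]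
        unfold Q191.Carl.one
        rw [hx2]
      have h3 : ∀ᵐ x ∂(vol a b), (T f : L2 a b) x = ∫ y, (U.indicator (fun _ => (1 : ℂ)) x) *
          (U.indicator (fun _ => (1 : ℂ)) y) * f y ∂(vol a b) := by
        filter_upwards [h1] with x hx
        rw [hx, ← integral_indicator hU, mul_comm, ← integral_const_mul]
        congr 1
        funext y
        by_cases hy : y ∈ U
        · rw [Set.indicator_of_mem hy, Set.indicator_of_mem hy]
          ring
        · rw [Set.indicator_of_notMem hy, Set.indicator_of_notMem hy]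
          ring
      exact h3
  · -- `B` is a Carleman operator
    refine ⟨Q191.Carl.ker (vol a b) U N, ⟨?_, ?_⟩, ?_⟩
    · exact (Q191.Carl.ker_measurable hU hN).aestronglyMeasurable
    · exact Eventually.of_forall (Q191.Carl.ker_memLp hU hμU hN)
    · rintro f g ⟨hf, rfl⟩
      exact Q191.Carl.maxOp_apply _ ⟨f, hf⟩
  · intro f h
    constructor
    · rintro ⟨hf, rfl⟩
      exact ⟨B ⟨f, hf⟩, ⟨hf, rfl⟩, trivial, rfl⟩
    · rintro ⟨g, ⟨hf, rfl⟩, -, rfl⟩
      exact ⟨hf, rfl⟩
  · -- the product is not a Carleman operator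
    rintro ⟨k, ⟨-, hk⟩, hrep⟩
    refine Q191.Carl.not_represented (μ := vol a b) hU hμU hN hpos k hk fun n => ?_
    exact hrep _ _ ⟨Q191.Carl.ind_mem (μ := vol a b) hU hμU hN hpos n,
      Q191.Carl.opA_opB_ind hU hμU hN hpos n⟩
  · exact Q191.Carl.maxOp_isClosed _
  · exact Q191.Carl.dense_domain hU hμU hN

end Pool.Agent.Results.MP_fd0bc0_an.CarlemanProducts
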